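import Pool.Graph.R_seed8.H164R3.FpMain

set_option autoImplicit false

/-!
# The intersection property of Lipschitz free `p`-spaces characterises completeness

`IsFree p o N δ` says that `(X, N)` with `δ : M → X` is the Lipschitz free `p`-space of the metric
space `M` with base point `o` (universal property), and `FSub N δ K` is the closed linear span of
`δ(K)`; both are definitions of the library (`Pool/Agent/H164R3/FpFree.lean`). There the
intersection property is proved for complete `M`. Here: it holds if and only if `M` is complete, and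
if and only if every vector has a support.
-/

open Pool.Agent.H164R3.Fp Filter Topology Set

namespace Pool.Agent.Results.MP_259edd_an.CompletenessAndSupports

/-- The closed set `S` is the support of the vector `γ`: for closed `K ⊆ M`, the vector `γ` is in
the closed linear span of `δ(K)` if and only if `S ⊆ K`. (So `S` is the smallest closed set whose
span contains `γ`; it is unique.) -/
def IsSupport {M X : Type} [MetricSpace M] [AddCommGroup X] [Module ℝ X] (N : X → ℝ) (δ : M → X)
    (γ : X) (S : Set M) : Prop :=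
  IsClosed S ∧ ∀ K : Set M, IsClosed K → (γ ∈ FSub N δ K ↔ S ⊆ K)

section

variable {M X : Type} [MetricSpace M] [AddCommGroup X] [Module ℝ X] {N : X → ℝ} {δ : M → X}

omit [MetricSpace M] in
theorem FSub_mono {K L : Set M} (h : K ⊆ L) : FSub N δ K ⊆ FSub N δ L := by
  intro v hv ε hε
  obtain ⟨w, hw, hvw⟩ := hv ε hε
  exact ⟨w, Submodule.span_mono (image_mono h) hw, hvw⟩

omit [MetricSpace M] in
theorem N_neg {p : ℝ} (hN : IsPNorm p N) (v : X) : N (-v) = N v := by
  have := hN.smul (-1) v
  simpa using this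

/-- A limit of a non-convergent Cauchy sequence contradicts the intersection property. -/
theorem complete_of_inter {p : ℝ} (hp : 0 < p) {o : M} (h : IsFree p o N δ)
    (hI : ∀ K : ℕ → Set M, (∀ n, IsClosed (K n)) → (∀ n, K (n + 1) ⊆ K n) →
      (⋂ n, FSub N δ (K n)) ⊆ FSub N δ (⋂ n, K n)) : CompleteSpace M := by
  apply Metric.complete_of_cauchySeq_tendsto
  intro u hu
  by_contra hlim
  push Not at hlim
  -- no subsequence converges
  have hno : ∀ (x : M), ¬ ∀ ε > 0, ∀ n, ∃ m ≥ n, dist (u m) x < ε := by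
    intro x hx
    apply hlim x
    rw [Metric.tendsto_atTop]
    intro ε hε
    obtain ⟨k, hk⟩ := Metric.cauchySeq_iff.1 hu (ε / 2) (half_pos hε)
    obtain ⟨m, hm, hmx⟩ := hx (ε / 2) (half_pos hε) k
    refine ⟨k, fun n hn => ?_⟩
    calc dist (u n) x ≤ dist (u n) (u m) + dist (u m) x := dist_triangle _ _ _
      _ < ε / 2 + ε / 2 := add_lt_add (hk n hn m hm) hmx
      _ = ε := add_halves ε
  have hcl : ∀ n, IsClosed (u '' Ici n) := by
    intro n
    apply isClosed_of_closure_subset
    intro x hx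
    by_contra hxn
    apply hno x
    intro ε hε k
    -- the points `u n, ..., u k` stay away from `x`
    have hfin : ((fun m => dist (u m) x) '' (Icc n k)).Finite := (Set.finite_Icc n k).image _
    obtain ⟨ρ, hρ, hρk⟩ : ∃ ρ > 0, ∀ m ∈ Icc n k, ρ ≤ dist (u m) x := by
      by_cases hne : (Icc n k).Nonempty
      · obtain ⟨m, hm, hmin⟩ := (Set.finite_Icc n k).exists_minimalFor
          (fun m => dist (u m) x) (Icc n k) hne
        refine ⟨dist (u m) x, ?_, ?_⟩
        · refine dist_pos.2 fun h' => hxn ?_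
          rw [← h']
          exact ⟨m, hm.1, rfl⟩
        · intro j hj
          by_contra hcon
          exact hcon (hmin hj (not_le.1 hcon).le)
      · refine ⟨1, one_pos, fun m hm => (hne ⟨m, hm⟩).elim⟩
    obtain ⟨_, ⟨m, hm, rfl⟩, hmx⟩ := Metric.mem_closure_iff.1 hx (min ε ρ) (lt_min hε hρ)
    rw [dist_comm] at hmx
    refine ⟨m, ?_, lt_of_lt_of_le hmx (min_le_left _ _)⟩
    by_contra hmk
    have := hρk m ⟨hm, (not_le.1 hmk).le⟩
    exact absurd (lt_of_lt_of_le hmx (min_le_right _ _)) (not_lt.2 this)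
  have hemp : (⋂ n, u '' Ici n) = (∅ : Set M) := by
    rw [Set.eq_empty_iff_forall_notMem]
    intro x hx
    apply hno x
    intro ε hε n
    obtain ⟨m, hm, hmx⟩ := mem_iInter.1 hx n
    exact ⟨m, hm, by rw [hmx, dist_self]; exact hε⟩
  -- the limit of `δ (u m)`
  obtain ⟨v, hv⟩ := h.banach.complete (fun m => δ (u m)) (by
    intro ε hε
    obtain ⟨k, hk⟩ := Metric.cauchySeq_iff.1 hu ε hε
    exact ⟨k, fun m hm n hn => by rw [h.isom]; exact hk m hm n hn⟩)
  have hvK : v ∈ ⋂ n, FSub N δ (u '' Ici n) := by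
    refine mem_iInter.2 fun n ε hε => ?_
    obtain ⟨k, hk⟩ := hv ε hε
    refine ⟨δ (u (max n k)), Submodule.subset_span ⟨_, ⟨max n k, Set.mem_Ici.2 (le_max_left n k), rfl⟩, rfl⟩, ?_⟩
    rw [← N_neg h.banach.toIsPNorm, neg_sub]
    exact hk _ (le_max_right _ _)
  have hv0 := hI _ hcl (fun n => image_mono (Ici_subset_Ici.2 (Nat.le_succ n))) hvK
  rw [hemp] at hv0
  have hvz : v = 0 := by
    apply h.banach.eq_zero
    apply le_antisymm _ (h.banach.nonneg v)
    apply le_of_forall_pos_lt_add
    intro ε hε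
    obtain ⟨w, hw, hvw⟩ := hv0 ε hε
    rw [image_empty, Submodule.span_empty, Submodule.mem_bot] at hw
    rw [hw, sub_zero] at hvw
    linarith
  apply hlim o
  rw [Metric.tendsto_atTop]
  intro ε hε
  obtain ⟨k, hk⟩ := hv ε hε
  refine ⟨k, fun n hn => ?_⟩
  have := hk n hn
  rw [hvz, ← h.base, h.isom] at this
  exact this

/-- Every vector is in the closed span of a separable closed set. -/
theorem separable_carrier {p : ℝ} {o : M} (h : IsFree p o N δ) (γ : X) :
    ∃ D : Set M, D.Countable ∧ γ ∈ FSub N δ (closure D) := by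
  classical
  have h1 : ∀ n : ℕ, ∃ F : Finset M, ∃ w ∈ Submodule.span ℝ (δ '' (F : Set M)),
      N (γ - w) < 1 / ((n : ℝ) + 1) := by
    intro n
    obtain ⟨w, hw, hwn⟩ := h.dense γ (1 / ((n : ℝ) + 1)) Nat.one_div_pos_of_nat
    obtain ⟨T, hT, hwT⟩ := Submodule.mem_span_finite_of_mem_span hw
    rw [← image_univ, Finset.subset_set_image_iff] at hT
    obtain ⟨F, _, hF⟩ := hT
    refine ⟨F, w, ?_, hwn⟩
    rw [← Finset.coe_image, hF]
    exact hwT
  choose F w hw hwn using h1
  refine ⟨⋃ n, (F n : Set M), countable_iUnion fun n => (F n).countable_toSet, ?_⟩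
  intro ε hε
  obtain ⟨n, hn⟩ := exists_nat_one_div_lt hε
  refine ⟨w n, Submodule.span_mono (image_mono ?_) (hw n), (hwn n).trans hn⟩
  exact (subset_iUnion (fun n => (F n : Set M)) n).trans subset_closure

end

/-- **Full answer to Q1, and its converse.** Let `0 < p ≤ 1`, let `M` be ANY metric space with base
point `o`, and let `(X, N)`, `δ : M → X` be its Lipschitz free `p`-space.
(A) The following are equivalent:
(1) `M` is complete;
(2) for every decreasing sequence of closed sets `K_n ⊆ M`, a vector which is in `F_p(K_n; M)` for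
every `n` is in `F_p(⋂ K_n; M)`;
(3) `⋂ F_p(K_k; M) = F_p(⋂ K_k; M)` for all families of closed sets;
(4) every vector has a support;
(5) every vector has a separable support.
(B) If `M` is complete then, for every `K ⊆ M`, a vector is in `F_p(K; M)` if and only if it is
annihilated by every bounded linear functional which vanishes on `δ(K)`. -/
theorem result (p : ℝ) (hp : 0 < p) (hp1 : p ≤ 1) (M : Type) [MetricSpace M] (o : M)
    (X : Type) [AddCommGroup X] [Module ℝ X] (N : X → ℝ) (δ : M → X) (h : IsFree p o N δ) :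
    List.TFAE [CompleteSpace M,
      ∀ K : ℕ → Set M, (∀ n, IsClosed (K n)) → (∀ n, K (n + 1) ⊆ K n) →
        (⋂ n, FSub N δ (K n)) ⊆ FSub N δ (⋂ n, K n),
      ∀ (κ : Type) (K : κ → Set M), (∀ k, IsClosed (K k)) →
        (⋂ k, FSub N δ (K k)) = FSub N δ (⋂ k, K k),
      ∀ γ : X, ∃ S : Set M, IsSupport N δ γ S,
      ∀ γ : X, ∃ S : Set M, IsSupport N δ γ S ∧ TopologicalSpace.IsSeparable S] ∧
    (CompleteSpace M → ∀ (K : Set M) (γ : X), γ ∈ FSub N δ K ↔
      ∀ T : X →ₗ[ℝ] ℝ, (∃ C, ∀ v, |T v| ≤ C * N v) → (∀ x ∈ K, T (δ x) = 0) → T γ = 0) := by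
  refine ⟨?_, fun hM => (intersection hp hp1 o N δ h).2⟩
  tfae_have 1 → 3 := by
    intro hM κ K hK
    apply Subset.antisymm ((intersection hp hp1 o N δ h).1 κ K hK)
    exact subset_iInter fun k => FSub_mono (iInter_subset _ k)
  tfae_have 3 → 4 := by
    intro h3 γ
    have h4 := h3 {K : Set M // IsClosed K ∧ γ ∈ FSub N δ K} (fun K => K.1) fun K => K.2.1
    refine ⟨⋂ K : {K : Set M // IsClosed K ∧ γ ∈ FSub N δ K}, K.1,
      isClosed_iInter fun K => K.2.1, fun K hK => ⟨fun hγ => ?_, fun hS => ?_⟩⟩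
    · exact iInter_subset (fun K : {K : Set M // IsClosed K ∧ γ ∈ FSub N δ K} => K.1) ⟨K, hK, hγ⟩
    · apply FSub_mono hS
      rw [← h4]
      exact mem_iInter.2 fun K => K.2.2
  tfae_have 4 → 5 := by
    intro h4 γ
    obtain ⟨S, hS⟩ := h4 γ
    obtain ⟨D, hD, hγ⟩ := separable_carrier h γ
    refine ⟨S, hS, ?_⟩
    exact (hD.isSeparable.closure).mono ((hS.2 _ isClosed_closure).1 hγ)
  tfae_have 5 → 2 := by
    intro h5 K hK _ γ hγ
    obtain ⟨S, hS, _⟩ := h5 γ
    rw [hS.2 _ (isClosed_iInter hK)]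
    exact subset_iInter fun n => (hS.2 _ (hK n)).1 (mem_iInter.1 hγ n)
  tfae_have 2 → 1 := complete_of_inter hp h
  tfae_finish

end Pool.Agent.Results.MP_259edd_an.CompletenessAndSupports
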